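import Pool.Agent.H27.Leg.Bd

/-!
# MP_f4af34, `NotBall`: Legendre series with geometrically decreasing coefficients are real analytic
-/

set_option autoImplicit false
open Filter Topology Set Polynomial

namespace Pool.Agent.H97.NB

open Pool.Agent.H27.Leg

/-- the values near `[-1, 1]` in the complex plane are majorised by the values to the right of `1` -/
def Mj (p : ℝ[X]) : Prop :=
  ∀ x ∈ Icc (-1 : ℝ) 1, ∀ h : ℂ, ‖aeval ((x : ℂ) + h) p‖ ≤ p.eval (1 + ‖h‖)

theorem Mj.add {p q : ℝ[X]} (hp : Mj p) (hq : Mj q) : Mj (p + q) := by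
  intro x hx h
  rw [map_add, eval_add]
  exact (norm_add_le _ _).trans (add_le_add (hp x hx h) (hq x hx h))

theorem Mj.mul {p q : ℝ[X]} (hp : Mj p) (hq : Mj q) : Mj (p * q) := by
  intro x hx h
  rw [map_mul, eval_mul, norm_mul]
  exact mul_le_mul (hp x hx h) (hq x hx h) (norm_nonneg _) ((norm_nonneg _).trans (hp x hx h))

theorem mj_X : Mj X := by
  intro x hx h
  rw [aeval_X, eval_X]
  refine (norm_add_le _ _).trans (add_le_add ?_ le_rfl)
  rw [Complex.norm_real, Real.norm_eq_abs, abs_le]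
  exact hx

theorem mj_C {a : ℝ} (ha : 0 ≤ a) : Mj (C a) := by
  intro x hx h
  rw [aeval_C, eval_C]
  simp [abs_of_nonneg ha]

theorem mj_of_deriv {p : ℝ[X]} (hp : Mj (derivative p)) (h1 : ∀ x ∈ Icc (-1 : ℝ) 1, |p.eval x| ≤ p.eval 1) :
    Mj p := by
  intro x hx h
  have e1 : ∀ t : ℝ, HasDerivAt (fun t : ℝ => aeval ((x : ℂ) + t * h) p)
      (aeval ((x : ℂ) + t * h) (derivative p) * h) t := by
    intro t
    have a1 : HasDerivAt (fun t : ℝ => (x : ℂ) + t * h) h t := by
      have := ((Complex.ofRealCLM.hasDerivAt (x := t)).mul_const h).const_add (x : ℂ)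
      simpa using this
    exact (p.hasDerivAt_aeval ((x : ℂ) + t * h)).comp t a1
  have e2 : ∀ t : ℝ, HasDerivAt (fun t : ℝ => p.eval (1 + t * ‖h‖))
      ((derivative p).eval (1 + t * ‖h‖) * ‖h‖) t := by
    intro t
    have a1 : HasDerivAt (fun t : ℝ => 1 + t * ‖h‖) ‖h‖ t := by
      have := ((hasDerivAt_id t).mul_const ‖h‖).const_add 1
      simpa using this
    exact (p.hasDerivAt (1 + t * ‖h‖)).comp t a1
  have key := image_norm_le_of_norm_deriv_right_le_deriv_boundary (a := 0) (b := 1)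
    (f := fun t : ℝ => aeval ((x : ℂ) + t * h) p)
    (f' := fun t : ℝ => aeval ((x : ℂ) + t * h) (derivative p) * h)
    (B := fun t : ℝ => p.eval (1 + t * ‖h‖)) (B' := fun t : ℝ => (derivative p).eval (1 + t * ‖h‖) * ‖h‖)
    (fun t _ => (e1 t).continuousAt.continuousWithinAt) (fun t _ => (e1 t).hasDerivWithinAt) ?_
    (fun t => e2 t) ?_ (right_mem_Icc.2 zero_le_one)
  · simpa using key
  · simp only [Complex.ofReal_zero, zero_mul, add_zero]
    have e3 := aeval_algebraMap_apply_eq_algebraMap_eval (A := ℂ) x p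
    simp only [Complex.coe_algebraMap] at e3
    rw [e3, Complex.norm_real, Real.norm_eq_abs]
    exact h1 x hx
  · intro t ht
    have a2 := hp x hx (t * h)
    rw [norm_mul, Complex.norm_real, Real.norm_of_nonneg ht.1] at a2
    rw [norm_mul]
    exact mul_le_mul_of_nonneg_right a2 (norm_nonneg _)

theorem mj_P (n : ℕ) : Mj (P n) ∧ Mj (derivative (P n)) := by
  induction n with
  | zero =>
    rw [P_zero, derivative_one]
    exact ⟨by simpa using mj_C zero_le_one, by simpa using mj_C le_rfl⟩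
  | succ n ih =>
    have h1 : Mj (derivative (P (n + 1))) := by
      rw [der_A]
      exact (mj_X.mul ih.2).add ((mj_C (by positivity)).mul ih.1)
    refine ⟨mj_of_deriv h1 fun x hx => ?_, h1⟩
    rw [eval_one']
    exact abs_le_one _ (abs_le.2 hx)

/-- the bound near the interval -/
theorem norm_P_le (n : ℕ) {q δ : ℝ} (hq : 1 ≤ q) (h2 : 2 * (1 + δ) ≤ q + 1 / q) {x : ℝ}
    (hx : x ∈ Icc (-1 : ℝ) 1) {z : ℂ} (hz : ‖z - x‖ ≤ δ) : ‖aeval z (P n)‖ ≤ q ^ n := by
  have h3 := (mj_P n).1 x hx (z - x)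
  rw [add_sub_cancel] at h3
  refine h3.trans ((le_abs_self _).trans (abs_le_pow n hq ?_))
  rw [abs_of_nonneg (by positivity)]
  linarith

/-- analyticity of the sum -/
theorem analytic {a : ℕ → ℝ} {q : ℝ} (hq : 1 < q) (ha : Summable fun k => |a k| * q ^ k) :
    ∃ r : ℝ, 1 < r ∧ AnalyticOnNhd ℝ (fun x => ∑' k, a k * (P k).eval x) (Ioo (-r) r) := by
  have hq0 : 0 < q := by linarith
  set δ : ℝ := (q + 1 / q) / 2 - 1 with hδ
  have hδ0 : 0 < δ := by
    have h1 : 0 < (q - 1) ^ 2 / q := by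
      have : 0 < q - 1 := by linarith
      positivity
    have h2 : (q - 1) ^ 2 / q = q + 1 / q - 2 := by
      field_simp
      ring
    rw [hδ]
    linarith
  refine ⟨1 + δ, by linarith, ?_⟩
  set T : Set ℂ := (fun x : ℝ => (x : ℂ)) '' Icc (-1 : ℝ) 1 with hT
  set U : Set ℂ := Metric.thickening δ T with hU
  have hUo : IsOpen U := Metric.isOpen_thickening
  have hbd : ∀ k, ∀ z ∈ U, ‖(a k : ℂ) * aeval z (P k)‖ ≤ |a k| * q ^ k := by
    intro k z hz
    obtain ⟨w, ⟨x, hx, rfl⟩, hw⟩ := Metric.mem_thickening_iff.1 hz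
    rw [norm_mul, Complex.norm_real, Real.norm_eq_abs]
    refine mul_le_mul_of_nonneg_left ?_ (abs_nonneg _)
    refine norm_P_le k (δ := δ) hq.le ?_ hx ?_
    · rw [hδ]
      linarith
    · rw [dist_eq_norm] at hw
      exact hw.le
  have hd : DifferentiableOn ℂ (fun z => ∑' k, (a k : ℂ) * aeval z (P k)) U := by
    refine Complex.differentiableOn_tsum_of_summable_norm ha (fun k => ?_) hUo hbd
    exact ((Polynomial.differentiable_aeval (P k)).const_mul _).differentiableOn
  have han : AnalyticOnNhd ℂ (fun z => ∑' k, (a k : ℂ) * aeval z (P k)) U := hd.analyticOnNhd hUo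
  intro x hx
  have hxU : (x : ℂ) ∈ U := by
    rw [hU, Metric.mem_thickening_iff]
    rcases le_total x (-1) with h | h
    · refine ⟨((-1 : ℝ) : ℂ), ⟨-1, by simp, rfl⟩, ?_⟩
      rw [Complex.dist_of_im_eq (by simp), Complex.ofReal_re, Complex.ofReal_re, Real.dist_eq, abs_lt]
      constructor <;> linarith [hx.1, hx.2]
    rcases le_total 1 x with h' | h'
    · refine ⟨((1 : ℝ) : ℂ), ⟨1, by simp, rfl⟩, ?_⟩
      rw [Complex.dist_of_im_eq (by simp), Complex.ofReal_re, Complex.ofReal_re, Real.dist_eq, abs_lt]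
      constructor <;> linarith [hx.1, hx.2]
    · exact ⟨(x : ℂ), ⟨x, ⟨h, h'⟩, rfl⟩, by simpa using hδ0⟩
  have e1 : AnalyticAt ℝ (fun z : ℂ => ∑' k, (a k : ℂ) * aeval z (P k)) (x : ℂ) :=
    (han _ hxU).restrictScalars
  have e2 : AnalyticAt ℝ (fun t : ℝ => (t : ℂ)) x := Complex.ofRealCLM.analyticAt x
  have e3 : AnalyticAt ℝ (fun t : ℝ => ∑' k, (a k : ℂ) * aeval (t : ℂ) (P k)) x :=
    AnalyticAt.fun_comp (g := fun z : ℂ => ∑' k, (a k : ℂ) * aeval z (P k)) e1 e2
  have e4 : AnalyticAt ℝ (fun t : ℝ => (∑' k, (a k : ℂ) * aeval (t : ℂ) (P k)).re) x :=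
    (Complex.reCLM.analyticAt _).fun_comp e3
  refine e4.congr ?_
  refine Eventually.of_forall fun t => ?_
  have : ∀ k, (a k : ℂ) * aeval (t : ℂ) (P k) = ((a k * (P k).eval t : ℝ) : ℂ) := by
    intro k
    have := aeval_algebraMap_apply_eq_algebraMap_eval (A := ℂ) t (P k)
    simp only [Complex.coe_algebraMap] at this
    rw [this]
    push_cast
    rfl
  simp only [this]
  rw [← Complex.ofReal_tsum, Complex.ofReal_re]

end Pool.Agent.H97.NB
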