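import Mathlib

/-!
# MP_f4af34, `NotBall`: a diffeomorphism of the space from the unit ball to `‖X‖ < R (X₂ / ‖X‖)`
-/

set_option autoImplicit false
open Filter Topology Set
open scoped ContDiff

noncomputable section

namespace Pool.Agent.H97.NB

abbrev E3 : Type := EuclideanSpace ℝ (Fin 3)

/-- the cosine of the polar angle -/
def xc (X : E3) : ℝ := X 2 / ‖X‖

theorem xc_mem (X : E3) : xc X ∈ Icc (-1 : ℝ) 1 := by
  have h : |X 2| ≤ ‖X‖ := by
    simpa using PiLp.norm_apply_le X 2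
  rw [mem_Icc, ← abs_le]
  unfold xc
  rw [abs_div, abs_norm]
  exact div_le_one_of_le₀ h (norm_nonneg _)

theorem xc_smul {s : ℝ} (hs : 0 < s) (X : E3) : xc (s • X) = xc X := by
  unfold xc
  rw [norm_smul, Real.norm_of_nonneg hs.le]
  simp only [PiLp.smul_apply, smul_eq_mul]
  rw [mul_div_mul_left _ _ hs.ne']

theorem contDiffAt_xc {X : E3} (hX : X ≠ 0) : ContDiffAt ℝ ∞ xc X := by
  unfold xc
  have h1 : ContDiffAt ℝ ∞ (fun X : E3 => X 2) X := by
    have := (EuclideanSpace.proj (𝕜 := ℝ) (2 : Fin 3) : E3 →L[ℝ] ℝ).contDiff.contDiffAt (x := X) (n := ∞)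
    exact this
  exact h1.div (contDiffAt_norm ℝ hX) (norm_ne_zero_iff.2 hX)

/-- the cut-off -/
def th (t : ℝ) : ℝ := expNegInvGlue (t - 1 / 2) / expNegInvGlue (1 / 2)

theorem th_den : 0 < expNegInvGlue (1 / 2) := expNegInvGlue.pos_of_pos (by norm_num)

theorem th_one : th 1 = 1 := by
  unfold th
  rw [show (1 : ℝ) - 1 / 2 = 1 / 2 by norm_num, div_self th_den.ne']

theorem th_zero {t : ℝ} (ht : t ≤ 1 / 2) : th t = 0 := by
  unfold th
  rw [expNegInvGlue.zero_of_nonpos (by linarith), zero_div]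

theorem th_nonneg (t : ℝ) : 0 ≤ th t := div_nonneg (expNegInvGlue.nonneg _) th_den.le

theorem th_mono : Monotone th := fun _ _ h =>
  div_le_div_of_nonneg_right (expNegInvGlue.monotone (by linarith)) th_den.le

theorem th_contDiff : ContDiff ℝ ∞ th := by
  unfold th
  have h : ContDiff ℝ ∞ expNegInvGlue := expNegInvGlue.contDiff
  exact (h.comp (contDiff_id.sub contDiff_const)).div_const _

theorem th_deriv_nonneg (t : ℝ) : 0 ≤ deriv th t := th_mono.deriv_nonneg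

/-- the hypotheses on the profile -/
structure Prof (R : ℝ → ℝ) (m : ℝ) : Prop where
  pos : 0 < m
  lt : ∀ x ∈ Icc (-1 : ℝ) 1, m < R x
  smooth : ∀ x ∈ Icc (-1 : ℝ) 1, ContDiffAt ℝ ∞ R x

variable {R : ℝ → ℝ} {m : ℝ}

/-- the factor -/
def hf (R : ℝ → ℝ) (m : ℝ) (X : E3) : ℝ := m + th (‖X‖ ^ 2) * (R (xc X) - m)

theorem hf_contDiffAt (h : Prof R m) (X : E3) : ContDiffAt ℝ ∞ (hf R m) X := by
  by_cases hX : X = 0
  · subst hX
    have hev : hf R m =ᶠ[𝓝 0] fun _ => m := by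
      have hc : ∀ᶠ X : E3 in 𝓝 0, ‖X‖ ^ 2 < 1 / 2 := by
        have : Tendsto (fun X : E3 => ‖X‖ ^ 2) (𝓝 0) (𝓝 (‖(0 : E3)‖ ^ 2)) :=
          (continuous_norm.pow 2).tendsto 0
        refine this.eventually_lt_const ?_
        simp
      filter_upwards [hc] with X hX
      unfold hf
      rw [th_zero hX.le]
      ring
    exact contDiffAt_const.congr_of_eventuallyEq hev
  · have e : ContDiffAt ℝ ∞ (fun Y : E3 => ‖Y‖ ^ 2) X := (contDiff_norm_sq ℝ).contDiffAt
    have e2 : ContDiffAt ℝ ∞ (fun Y : E3 => R (xc Y)) X := (h.smooth _ (xc_mem X)).comp X (contDiffAt_xc hX)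
    unfold hf
    exact contDiffAt_const.add ((th_contDiff.contDiffAt.comp X e).mul (e2.sub contDiffAt_const))

theorem hf_contDiff (h : Prof R m) : ContDiff ℝ ∞ (hf R m) :=
  contDiff_iff_contDiffAt.2 (hf_contDiffAt h)

theorem hf_ge (h : Prof R m) (X : E3) : m ≤ hf R m X := by
  have h1 := h.lt _ (xc_mem X)
  have h2 := th_nonneg (‖X‖ ^ 2)
  unfold hf
  nlinarith

theorem hf_pos (h : Prof R m) (X : E3) : 0 < hf R m X := h.pos.trans_le (hf_ge h X)

/-- the map -/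
def Fm (R : ℝ → ℝ) (m : ℝ) (X : E3) : E3 := hf R m X • X

theorem Fm_contDiff (h : Prof R m) : ContDiff ℝ ∞ (Fm R m) := (hf_contDiff h).smul contDiff_id

/-- the radial function along a ray -/
def gr (R : ℝ → ℝ) (m x s : ℝ) : ℝ := (m + th (s ^ 2) * (R x - m)) * s

theorem hf_eq (X : E3) : hf R m X * ‖X‖ = gr R m (xc X) ‖X‖ := rfl

theorem norm_Fm (h : Prof R m) (X : E3) : ‖Fm R m X‖ = gr R m (xc X) ‖X‖ := by
  unfold Fm
  rw [norm_smul, Real.norm_of_nonneg (hf_pos h X).le, hf_eq]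

theorem xc_Fm (h : Prof R m) (X : E3) : xc (Fm R m X) = xc X := xc_smul (hf_pos h X) X

theorem gr_strictMono (h : Prof R m) {x : ℝ} (hx : x ∈ Icc (-1 : ℝ) 1) {s t : ℝ} (hs : 0 ≤ s) (hst : s < t) :
    gr R m x s < gr R m x t := by
  have h1 := h.lt x hx
  have h2 : th (s ^ 2) ≤ th (t ^ 2) := th_mono (by nlinarith)
  have h3 := th_nonneg (s ^ 2)
  have h4 := h.pos
  unfold gr
  have h5 : m + th (s ^ 2) * (R x - m) ≤ m + th (t ^ 2) * (R x - m) := by nlinarith
  have h6 : 0 < m + th (t ^ 2) * (R x - m) := by nlinarith [th_nonneg (t ^ 2)]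
  calc (m + th (s ^ 2) * (R x - m)) * s ≤ (m + th (t ^ 2) * (R x - m)) * s :=
        mul_le_mul_of_nonneg_right h5 hs
    _ < _ := mul_lt_mul_of_pos_left hst h6

theorem gr_lt_iff (h : Prof R m) {x : ℝ} (hx : x ∈ Icc (-1 : ℝ) 1) {s t : ℝ} (hs : 0 ≤ s) (ht : 0 ≤ t) :
    gr R m x s < gr R m x t ↔ s < t := by
  refine ⟨fun h1 => ?_, gr_strictMono h hx hs⟩
  by_contra h2
  rcases (not_lt.1 h2).eq_or_lt with h3 | h3
  · rw [h3] at h1
    exact lt_irrefl _ h1
  · exact lt_irrefl _ (h1.trans (gr_strictMono h hx ht h3))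

theorem gr_one (x : ℝ) : gr R m x 1 = R x := by
  unfold gr
  rw [one_pow, th_one]
  ring

theorem Fm_inj (h : Prof R m) : Function.Injective (Fm R m) := by
  intro X Y hXY
  have e1 : xc X = xc Y := by rw [← xc_Fm h X, ← xc_Fm h Y, hXY]
  have e2 : gr R m (xc X) ‖X‖ = gr R m (xc X) ‖Y‖ := by
    rw [← norm_Fm h X, hXY, norm_Fm h Y, e1]
  have e3 : ‖X‖ = ‖Y‖ := by
    rcases lt_trichotomy ‖X‖ ‖Y‖ with h1 | h1 | h1
    · exact absurd e2 (gr_strictMono h (xc_mem X) (norm_nonneg _) h1).ne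
    · exact h1
    · exact absurd e2 (gr_strictMono h (xc_mem X) (norm_nonneg _) h1).ne'
  have e4 : hf R m X = hf R m Y := by
    unfold hf
    rw [e1, e3]
  have e5 : hf R m X • (X - Y) = 0 := by
    have : hf R m X • X = hf R m Y • Y := hXY
    rw [smul_sub, this, e4, sub_self]
  exact sub_eq_zero.1 ((smul_eq_zero.1 e5).resolve_left (hf_pos h X).ne')

theorem Fm_surj (h : Prof R m) : Function.Surjective (Fm R m) := by
  intro Z
  by_cases hZ : Z = 0
  · exact ⟨0, by rw [hZ]; unfold Fm; rw [smul_zero]⟩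
  have hZ0 : 0 < ‖Z‖ := norm_pos_iff.2 hZ
  have hm := h.pos
  have hx := xc_mem Z
  obtain ⟨s, hs, hs2⟩ : ∃ s ∈ Icc (0 : ℝ) (‖Z‖ / m), gr R m (xc Z) s = ‖Z‖ := by
    have hc : ContinuousOn (gr R m (xc Z)) (Icc 0 (‖Z‖ / m)) := by
      unfold gr
      have := th_contDiff.continuous
      fun_prop
    have := intermediate_value_Icc (by positivity : (0 : ℝ) ≤ ‖Z‖ / m) hc
    refine this ⟨?_, ?_⟩
    · unfold gr
      rw [mul_zero]
      exact hZ0.le
    · unfold gr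
      have h1 := h.lt _ hx
      have h2 := th_nonneg ((‖Z‖ / m) ^ 2)
      have h3 : 0 ≤ ‖Z‖ / m := by positivity
      calc ‖Z‖ = m * (‖Z‖ / m) := by field_simp
        _ ≤ _ := mul_le_mul_of_nonneg_right (by nlinarith) h3
  have hs0 : 0 < s := by
    rcases hs.1.eq_or_lt with h1 | h1
    · rw [← h1] at hs2
      unfold gr at hs2
      rw [mul_zero] at hs2
      exact absurd hs2 hZ0.ne
    · exact h1
  refine ⟨(s / ‖Z‖) • Z, ?_⟩
  have e1 : ‖(s / ‖Z‖) • Z‖ = s := by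
    rw [norm_smul, Real.norm_of_nonneg (by positivity), div_mul_cancel₀ _ hZ0.ne']
  have e2 : xc ((s / ‖Z‖) • Z) = xc Z := xc_smul (by positivity) Z
  unfold Fm hf
  rw [e1, e2, smul_smul]
  have e3 : (m + th (s ^ 2) * (R (xc Z) - m)) * (s / ‖Z‖) = 1 := by
    unfold gr at hs2
    rw [← mul_div_assoc, hs2, div_self hZ0.ne']
  rw [e3, one_smul]

/-- the radial derivative of the factor is nonnegative -/
theorem hf_radial (h : Prof R m) (X : E3) : 0 ≤ fderiv ℝ (hf R m) X X := by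
  by_cases hX : X = 0
  · rw [hX, map_zero]
  have hd : HasDerivAt (fun s : ℝ => hf R m (s • X)) (fderiv ℝ (hf R m) X X) 1 := by
    have e : HasFDerivAt (hf R m) (fderiv ℝ (hf R m) X) ((1 : ℝ) • X) := by
      rw [one_smul]
      exact ((hf_contDiff h).differentiable (by simp) X).hasFDerivAt
    have e2 : HasDerivAt (fun s : ℝ => s • X) X 1 := by
      simpa using (hasDerivAt_id (1 : ℝ)).smul_const X
    exact e.comp_hasDerivAt (1 : ℝ) e2
  have hd2 : HasDerivAt (fun s : ℝ => hf R m (s • X))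
      (deriv th (‖X‖ ^ 2) * (2 * ‖X‖ ^ 2) * (R (xc X) - m)) 1 := by
    have e0 : HasDerivAt (fun s : ℝ => s ^ 2 * ‖X‖ ^ 2) (2 * ‖X‖ ^ 2) 1 := by
      have := (hasDerivAt_pow 2 (1 : ℝ)).mul_const (‖X‖ ^ 2)
      simpa using this
    have e1 : HasDerivAt th (deriv th (‖X‖ ^ 2)) ((1 : ℝ) ^ 2 * ‖X‖ ^ 2) := by
      rw [one_pow, one_mul]
      exact (th_contDiff.differentiable (by simp) _).hasDerivAt
    have e2 : HasDerivAt (fun s : ℝ => m + th (s ^ 2 * ‖X‖ ^ 2) * (R (xc X) - m))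
        (deriv th (‖X‖ ^ 2) * (2 * ‖X‖ ^ 2) * (R (xc X) - m)) 1 :=
      ((e1.comp (1 : ℝ) e0).mul_const _).const_add m
    refine e2.congr_of_eventuallyEq ?_
    filter_upwards [lt_mem_nhds one_pos] with s hs
    unfold hf
    rw [norm_smul, Real.norm_of_nonneg hs.le, xc_smul hs, mul_pow]
  rw [hd.unique hd2]
  have h1 := h.lt _ (xc_mem X)
  have h2 := th_deriv_nonneg (‖X‖ ^ 2)
  have h3 : 0 ≤ R (xc X) - m := by linarith
  positivity

theorem Fm_hasStrict (h : Prof R m) (X : E3) :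
    HasStrictFDerivAt (Fm R m) (hf R m X • ContinuousLinearMap.id ℝ E3 +
      (fderiv ℝ (hf R m) X).smulRight X) X := by
  have e1 : HasStrictFDerivAt (hf R m) (fderiv ℝ (hf R m) X) X :=
    (hf_contDiffAt h X).hasStrictFDerivAt (by simp)
  exact e1.smul (hasStrictFDerivAt_id X)

theorem Fm_ker (h : Prof R m) (X V : E3)
    (hV : (hf R m X • ContinuousLinearMap.id ℝ E3 + (fderiv ℝ (hf R m) X).smulRight X) V = 0) : V = 0 := by
  have e0 : hf R m X • V + fderiv ℝ (hf R m) X V • X = 0 := by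
    simpa using hV
  have hp := hf_pos h X
  set l := fderiv ℝ (hf R m) X V with hl
  have e1 : V = -(l / hf R m X) • X := by
    have : hf R m X • V = -(l • X) := eq_neg_of_add_eq_zero_left e0
    calc V = (hf R m X)⁻¹ • (hf R m X • V) := by rw [smul_smul, inv_mul_cancel₀ hp.ne', one_smul]
      _ = _ := by rw [this, smul_neg, smul_smul, neg_smul]; congr 2; field_simp
  have e2 : l = -(l / hf R m X) * fderiv ℝ (hf R m) X X := by
    conv_lhs => rw [hl, e1]
    rw [map_smul, smul_eq_mul]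
  have h1 := hf_radial h X
  have e3 : l * (hf R m X + fderiv ℝ (hf R m) X X) = 0 := by
    have : l * hf R m X = -(l * fderiv ℝ (hf R m) X X) := by
      conv_lhs => rw [e2]
      field_simp
    linarith
  have e4 : l = 0 := (mul_eq_zero.1 e3).resolve_right (by linarith)
  rw [e1, e4]
  simp

/-- the derivative as an equivalence -/
def Fd (h : Prof R m) (X : E3) : E3 ≃L[ℝ] E3 :=
  (LinearEquiv.ofInjectiveEndo
    ((hf R m X • ContinuousLinearMap.id ℝ E3 + (fderiv ℝ (hf R m) X).smulRight X : E3 →L[ℝ] E3) : E3 →ₗ[ℝ] E3)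
    (by
      rw [← LinearMap.ker_eq_bot, LinearMap.ker_eq_bot']
      intro V hV
      exact Fm_ker h X V hV)).toContinuousLinearEquiv

theorem Fd_coe (h : Prof R m) (X : E3) : (Fd h X : E3 →L[ℝ] E3) =
    hf R m X • ContinuousLinearMap.id ℝ E3 + (fderiv ℝ (hf R m) X).smulRight X := by
  ext1 V
  rfl

theorem exists_diffeo (h : Prof R m) : ∃ F : E3 ≃ₜ E3, ContDiff ℝ ∞ F ∧ ContDiff ℝ ∞ F.symm ∧
    F '' Metric.ball 0 1 = {X | ‖X‖ < R (X 2 / ‖X‖)} := by
  have hs : ∀ X, HasStrictFDerivAt (Fm R m) (Fd h X : E3 →L[ℝ] E3) X := fun X => by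
    rw [Fd_coe]
    exact Fm_hasStrict h X
  have ho : IsOpenMap (Fm R m) := isOpenMap_of_hasStrictFDerivAt_equiv hs
  set F : E3 ≃ₜ E3 := (Equiv.ofBijective (Fm R m) ⟨Fm_inj h, Fm_surj h⟩).toHomeomorphOfContinuousOpen
    (Fm_contDiff h).continuous ho with hF
  have hc : ∀ X, F X = Fm R m X := fun X => rfl
  refine ⟨F, Fm_contDiff h, F.contDiff_symm (f₀' := Fd h) (fun X => (hs X).hasFDerivAt) (Fm_contDiff h), ?_⟩
  ext Z
  constructor
  · rintro ⟨X, hX, rfl⟩
    rw [mem_ball_zero_iff] at hX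
    show ‖Fm R m X‖ < R (xc (Fm R m X))
    rw [norm_Fm h, xc_Fm h, ← gr_one (R := R) (m := m) (xc X)]
    exact gr_strictMono h (xc_mem X) (norm_nonneg _) hX
  · intro hZ
    obtain ⟨X, rfl⟩ := Fm_surj h Z
    refine ⟨X, ?_, rfl⟩
    have h1 : ‖Fm R m X‖ < R (xc (Fm R m X)) := hZ
    rw [norm_Fm h, xc_Fm h, ← gr_one (R := R) (m := m) (xc X), gr_lt_iff h (xc_mem X) (norm_nonneg _) zero_le_one] at h1
    rw [mem_ball_zero_iff]
    exact h1

end Pool.Agent.H97.NB
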