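import Pool.Agent.H97.NB.Geo
import Pool.Agent.H97.NB.An
import Pool.Agent.H94.SF.Top

/-!
# MP_f4af34, `NotBall`: from the solution in the layer to the domain and the solution

`end_of_ext'` is a copy of `end_of_ext` (helper85) with the data in the conclusion.
-/

set_option autoImplicit false
open Filter Topology Set

noncomputable section

namespace SF

open Pool.Agent.H68.SC (jl djl)
open Pool.Agent.H27.Leg (P)
open Pool.Agent.H31.SG (E3 xx ParData RadFun)
open Pool.Agent.H97.SF (Ext BgFull xiq Yf)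
open SD (ey ez e0 cf Modes LS)

/-- the domain with the radial function `R` has a solution (`k = 1`, boundary value `1`) -/
def EndData (R : ℝ → ℝ) : Prop :=
  ∃ r1 ξ : ℝ, RadFun R r1 ξ ∧ ∃ u : E3 → ℝ, ContDiffOn ℝ 2 u (Pool.Agent.H31.SG.Dom R) ∧
    (∀ x ∈ Pool.Agent.H31.SG.Dom R,
      (∑ i : Fin 3, fderiv ℝ (fderiv ℝ u) x (EuclideanSpace.single i (1 : ℝ))
        (EuclideanSpace.single i (1 : ℝ))) + (1 : ℝ) ^ 2 * u x = 0) ∧
    (∀ x ∈ frontier (Pool.Agent.H31.SG.Dom R), Tendsto u (𝓝[Pool.Agent.H31.SG.Dom R] x) (𝓝 1) ∧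
      Tendsto (fderiv ℝ u) (𝓝[Pool.Agent.H31.SG.Dom R] x) (𝓝 0))

theorem end_of_ext' {E nu' qq : ℝ} (hE : E ≠ 0) (S : Lay E) (hin : InnerStmt R0)
    (hM : Modes R0 rho nu S.y S.z S.f1 S.f2)
    (hqq : Icc (-1 : ℝ) 1 ⊆ X0)
    (hext : ∀ a : ℝ, 0 < a → a < R0 → Ext a R0 rho nu' qq v0 v1 v2 v3 chi chi1
      (ey S.y S.z R0) (ez S.y S.z R0) (e0 S.f1 R0) (e0 S.f2 R0)) : EndData S.R := by
  classical
  have hR0 := R0_pos'
  -- the coefficients of the interior solution
  set cc : ℕ → ℝ := fun k => (if k = 0 then 1 / jl 0 rho else 0) - cf S.y S.z R0 k with hcc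
  have hs1 : Summable fun k => |cf S.y S.z R0 k * jl k R0| := by
    have h := hM.coef_summable (q := 1) zero_le_one hM.nu 0
    refine h.congr fun k => ?_
    simp
  have hs2 : Summable fun k => |cc k * jl k R0| := by
    have h0 : Summable fun k : ℕ => |(if k = 0 then 1 / jl 0 rho else 0) * jl k R0| := by
      refine summable_of_ne_finset_zero (s := {0}) fun k hk => ?_
      rw [Finset.mem_singleton] at hk
      rw [if_neg hk, zero_mul, abs_zero]
    refine Summable.of_nonneg_of_le (fun k => abs_nonneg _) (fun k => ?_) (h0.add hs1)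
    rw [hcc]
    dsimp only
    rw [sub_mul]
    exact abs_sub _ _
  obtain ⟨b, hb0, hbR, u, hu, hpde, hglue⟩ := hin cc hs2
  have ha0 : 0 < b / 2 := by positivity
  have hab : b / 2 < b := by linarith
  have X := hext (b / 2) ha0 (hab.trans_le hbR)
  have PF := X.pairFull
  have BG := bgFull ha0 (hab.trans_le hbR)
  have PD := (Pool.Agent.H97.SF.parData BG PF).shrink hab hbR
  -- the radial function
  have hrho : R0 < rho := R0_lt_rho
  have hρI : rho ∈ I0 := ⟨hrho.le, le_rfl⟩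
  have hyρ : ∀ k, ey S.y S.z R0 k rho = S.y k rho := fun k => hM.ey_eq k hrho.le
  have hLS : ∀ x, LS 0 (ey S.y S.z R0) rho x = ev (fun k => S.y k rho) x := by
    intro x
    unfold LS ev
    exact tsum_congr fun k => by rw [hyρ k]; rfl
  have eR : (fun x => Pool.Agent.H36.SC.cX chi (Yf (ey S.y S.z R0) 0) (rho, x)) =
      fun x => rho + LS 0 (ey S.y S.z R0) rho x := by
    funext x
    simp only [Pool.Agent.H36.SC.cX, Yf, chi_rho, one_mul]
  have RF : RadFun (fun x => Pool.Agent.H36.SC.cX chi (Yf (ey S.y S.z R0) 0) (rho, x)) R0 (xiq qq) := by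
    rw [eR]
    refine ⟨hR0, SD.one_lt_half X.one_lt, contDiffOn_const.add X.contDiff, ?_, ?_, ?_⟩
    · intro x hx
      have h1 := (S.small rho hρI x (hqq hx)).1
      rw [hLS]
      have h2 := (abs_le.1 h1).1
      have h3 : R0 = rho - 1 / 4 := by unfold R0 wd; ring
      rw [h3]
      linarith
    · intro x _
      show rho + LS 0 (ey S.y S.z R0) rho (-x) = rho + LS 0 (ey S.y S.z R0) rho x
      have h1 : ∀ k, Odd k → ∀ s : ℝ, (fun (k : ℕ) (_ : ℝ) => S.y k rho) k s = 0 := fun k hk _ =>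
        (S.odd k hk rho hρI).1
      have h2 := SD.LS_even h1 rho x
      have h3 : ∀ x, LS 0 (fun (k : ℕ) (_ : ℝ) => S.y k rho) rho x = LS 0 (ey S.y S.z R0) rho x := by
        intro x
        unfold LS
        exact tsum_congr fun k => by rw [hyρ k]
      rw [h3, h3] at h2
      rw [h2]
    · have h1 : ey S.y S.z R0 ell rho ≠ 0 := by
        rw [hyρ, S.amp]
        exact hE
      obtain ⟨x, hx, hne⟩ := X.nonconst (l := ell) (by unfold ell; norm_num) h1
      exact ⟨x, hx, fun hh => hne (by simpa using hh)⟩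
  have eR2 : (fun x => Pool.Agent.H36.SC.cX chi (Yf (ey S.y S.z R0) 0) (rho, x)) = S.R := by
    rw [eR]
    funext x
    rw [hLS]
    rfl
  have key := PD.sol' RF hbR hu hpde ?_
  · rw [eR2] at RF key
    exact ⟨R0, xiq qq, RF, key⟩
  intro Y hY1 hY2
  have hY0 : 0 < ‖Y‖ := ha0.trans hY1
  have hYne : Y ≠ 0 := norm_pos_iff.1 hY0
  have hYR : ‖Y‖ ≤ R0 := hY2.le.trans hbR
  rw [hglue Y hYne hY2]
  simp only [Pool.Agent.H36.SC.cG, Yf, chi_of_le hYR, zero_mul, mul_zero, add_zero, sub_zero]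
  -- the series
  have hxY : xx Y ∈ Icc (-1 : ℝ) 1 := Pool.Agent.H31.SG.xx_mem Y
  have hxJ : xx Y ∈ SD.J qq := SD.Icc_subset_J X.one_lt hxY
  have hmem : ‖Y‖ ∈ Ioc (b / 2) rho := ⟨hY1, hYR.trans hrho.le⟩
  have hsum := SD.LS_summable (d := 0) (X.dom X.Dz 0) (by norm_num) X.q_le hmem hxJ
  have e1 : ∀ k, cc k * jl k ‖Y‖ * (P k).eval (xx Y) =
      (if k = 0 then jl 0 ‖Y‖ / jl 0 rho else 0) - ez S.y S.z R0 k ‖Y‖ * SD.Pd 0 k (xx Y) := by
    intro k
    rw [hcc]
    unfold ez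
    rw [if_pos hYR, SD.Pd_zero]
    dsimp only
    split_ifs with hk
    · subst hk
      rw [Pool.Agent.H27.Leg.P_zero]
      simp
      ring
    · ring
  have hsum0 : Summable fun k : ℕ => (if k = 0 then jl 0 ‖Y‖ / jl 0 rho else 0) :=
    summable_of_ne_finset_zero (s := {0}) fun k hk => by
      rw [Finset.mem_singleton] at hk
      rw [if_neg hk]
  rw [tsum_congr e1, hsum0.tsum_sub hsum, tsum_ite_eq]
  unfold v0 Pool.Agent.H36.SC.bv0 LS
  ring

theorem end_data {E : ℝ} (hE : E ≠ 0) (S : Lay E) (h : ∀ k, Even k → S.wr k = 0) : EndData S.R :=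
  end_of_ext' hE S inner_stmt (SD.modes S h) SD.Icc_subset_X0 fun _ ha hb => SD.ext h ha hb

/-- the radial function is real analytic near `[-1, 1]` -/
theorem Lay.analytic {E : ℝ} (S : Lay E) : ∃ r : ℝ, 1 < r ∧ AnalyticOnNhd ℝ S.R (Ioo (-r) r) := by
  have h1 : Summable fun k => |S.y k rho| * nu ^ k := by
    refine Summable.of_nonneg_of_le (fun k => ?_) (fun k => ?_) S.B_sum
    · have := one_le_nu_pow k
      positivity
    · have h2 := S.y_le k rho rho_mem
      have h4 : (0 : ℝ) ≤ (k : ℝ) * |S.y k rho| := by positivity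
      have h5 : |S.y k rho| ≤ S.B k := by linarith
      have h6 := one_le_nu_pow k
      rw [mul_comm]
      exact mul_le_mul_of_nonneg_left h5 (by linarith)
  obtain ⟨r, hr, ha⟩ := Pool.Agent.H97.NB.analytic (q := nu) (by unfold nu; norm_num) h1
  exact ⟨r, hr, fun x hx => analyticAt_const.add (ha x hx)⟩

/-- the radial function is even -/
theorem Lay.R_even {E : ℝ} (S : Lay E) (x : ℝ) : S.R (-x) = S.R x := by
  unfold Lay.R ev
  congr 1
  refine tsum_congr fun k => ?_
  show S.y k rho * Polynomial.eval (-x) (P k) = S.y k rho * Polynomial.eval x (P k)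
  rcases Nat.even_or_odd k with hk | hk
  · rw [Pool.Agent.H27.Leg.eval_neg', hk.neg_one_pow, one_mul]
  · rw [(S.odd k hk rho rho_mem).1, zero_mul, zero_mul]

theorem exists_data : ∃ R : ℝ → ℝ, EndData R ∧ (∃ r : ℝ, 1 < r ∧ AnalyticOnNhd ℝ R (Ioo (-r) r)) ∧
    ∀ x, R (-x) = R x := by
  obtain ⟨F⟩ := fix
  obtain ⟨E, hE, h0⟩ := boot F.bdy
  have hE0 : E ≠ 0 := by
    have h1 : E1 ≤ E := hE.1
    have h2 : (0 : ℝ) < E1 := by
      unfold E1
      norm_num
    exact (h2.trans_le h1).ne'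
  refine ⟨(F.S E hE).R, end_data hE0 (F.S E hE) (fun k hk => ?_), (F.S E hE).analytic, (F.S E hE).R_even⟩
  by_cases h : k = ell
  · subst h
    have h1 := mom (F.S E hE) ell
    rw [← bd_eq F hE, h0] at h1
    have h2 : (0 : ℝ) < 2 / (2 * (ell : ℝ) + 1) * R0 ^ 2 := by
      have := R0_pos
      positivity
    exact (mul_eq_zero.1 h1).resolve_left h2.ne'
  · exact (F.S E hE).reg k hk h

end SF
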