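import Pool.Agent.H31.SG.Param

/-!
# MP_f4af34, `NotBall`: the geometric reduction with the domain and the solution in the conclusion

Copies of `geo` and `ParData.notSchiffer` (helper31), the conclusion being the existence of the solution
in `Dom R`.
-/

set_option autoImplicit false
open Filter Topology Set

namespace Pool.Agent.H31.SG

variable {ξ a b ρ c : ℝ} {r rs rx V P W Ps Px Ws Wx : ℝ × ℝ → ℝ}

/-- The geometric reduction (`geo` of `H31/SG/Glue.lean`), with the domain and the solution. -/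
theorem geo' {R : ℝ → ℝ} {r1 ξ a b c : ℝ} (h : RadFun R r1 ξ) (ha : 0 < a) (hab : a < b) (hb : b ≤ r1)
    {S : Set (ℝ × ℝ)} (hS : IsOpen S)
    (hsub : ∀ z ∈ Below R, a < z.1 → z ∈ S)
    {U U1 U2 U11 U12 U21 U22 : ℝ × ℝ → ℝ} (hJ : Jet U U1 U2 U11 U12 U21 U22 S)
    (c11 : ContinuousOn U11 S) (c12 : ContinuousOn U12 S) (c21 : ContinuousOn U21 S)
    (c22 : ContinuousOn U22 S)
    (pde : ∀ z ∈ Below R, a < z.1 →
      U11 z + 2 / z.1 * U1 z + ((1 - z.2 ^ 2) * U22 z - 2 * z.2 * U2 z) / z.1 ^ 2 + U z = 0)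
    (b0 : ∀ x ∈ Icc (-1 : ℝ) 1, Tendsto U (𝓝[Below R] (R x, x)) (𝓝 c))
    (b1 : ∀ x ∈ Icc (-1 : ℝ) 1, Tendsto U1 (𝓝[Below R] (R x, x)) (𝓝 0))
    (b2 : ∀ x ∈ Icc (-1 : ℝ) 1, Tendsto U2 (𝓝[Below R] (R x, x)) (𝓝 0))
    {u0 : E3 → ℝ} (hu0 : ContDiffOn ℝ 2 u0 (Metric.ball 0 b))
    (pde0 : ∀ X ∈ Metric.ball (0 : E3) b,
      (∑ i : Fin 3, fderiv ℝ (fderiv ℝ u0) X (EuclideanSpace.single i (1 : ℝ))
        (EuclideanSpace.single i (1 : ℝ))) + u0 X = 0)
    (glue : ∀ X : E3, a < ‖X‖ → ‖X‖ < b → u0 X = U (‖X‖, xx X)) : ∃ u : E3 → ℝ, ContDiffOn ℝ 2 u (Dom R) ∧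
      (∀ x ∈ Dom R, (∑ i : Fin 3, fderiv ℝ (fderiv ℝ u) x (EuclideanSpace.single i (1 : ℝ))
        (EuclideanSpace.single i (1 : ℝ))) + (1 : ℝ) ^ 2 * u x = 0) ∧
      (∀ x ∈ frontier (Dom R), Tendsto u (𝓝[Dom R] x) (𝓝 c) ∧
        Tendsto (fderiv ℝ u) (𝓝[Dom R] x) (𝓝 0)) := by
  classical
  set u : E3 → ℝ := fun X => if ‖X‖ < b then u0 X else U (rr X, xx X) with hu
  have hU2 := hJ.contDiffOn hS c11 c12 c21 c22
  -- the two descriptions of `u`
  have ev1 : ∀ X : E3, ‖X‖ < b → u =ᶠ[𝓝 X] u0 := by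
    intro X hX
    have : ∀ᶠ Y : E3 in 𝓝 X, ‖Y‖ < b := continuous_norm.continuousAt.eventually_lt_const hX
    filter_upwards [this] with Y hY
    simp [hu, hY]
  have val2 : ∀ X : E3, a < ‖X‖ → u X = U (rr X, xx X) := by
    intro X hX
    by_cases hY : ‖X‖ < b
    · simp only [hu, hY, if_true]
      exact glue X hX hY
    · simp only [hu, hY, if_false]
  have ev2 : ∀ X : E3, a < ‖X‖ → u =ᶠ[𝓝 X] fun Y => U (rr Y, xx Y) := by
    intro X hX
    have : ∀ᶠ Y : E3 in 𝓝 X, a < ‖Y‖ := continuous_norm.continuousAt.eventually_const_lt hX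
    filter_upwards [this] with Y hY
    exact val2 Y hY
  have hne : ∀ X : E3, a < ‖X‖ → X ≠ 0 := by
    intro X hX h0
    rw [h0, norm_zero] at hX
    linarith
  have memB : ∀ X ∈ Dom R, (rr X, xx X) ∈ Below R := fun X hX => ⟨hX, xx_mem X⟩
  have memS : ∀ X ∈ Dom R, a < ‖X‖ → (rr X, xx X) ∈ S := fun X hX hX2 =>
    hsub _ (memB X hX) hX2
  refine ⟨u, ?_, ?_, ?_⟩
  · -- regularity
    intro X hX
    by_cases hX1 : ‖X‖ < b
    · have : ContDiffAt ℝ 2 u0 X := hu0.contDiffAt (Metric.isOpen_ball.mem_nhds (by simpa using hX1))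
      exact (this.congr_of_eventuallyEq (ev1 X hX1)).contDiffWithinAt
    · have hX2 : a < ‖X‖ := by linarith [not_lt.1 hX1]
      have e1 := (contDiffAt_rr (hne X hX2)).prodMk (contDiffAt_xx (hne X hX2))
      have e2 : ContDiffAt ℝ 2 U (rr X, xx X) := hU2.contDiffAt (hS.mem_nhds (memS X hX hX2))
      have e : ContDiffAt ℝ 2 (fun Y => U (rr Y, xx Y)) X := e2.comp X e1
      exact (e.congr_of_eventuallyEq (ev2 X hX2)).contDiffWithinAt
  · -- the equation
    intro X hX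
    by_cases hX1 : ‖X‖ < b
    · have e1 := (ev1 X hX1).fderiv (𝕜 := ℝ)
      rw [e1.fderiv_eq, (ev1 X hX1).eq_of_nhds]
      have := pde0 X (by simpa using hX1)
      rw [one_pow, one_mul]
      exact this
    · have hX2 : a < ‖X‖ := by linarith [not_lt.1 hX1]
      have e1 := (ev2 X hX2).fderiv (𝕜 := ℝ)
      rw [e1.fderiv_eq, (ev2 X hX2).eq_of_nhds, one_pow, one_mul,
        lap_comp hS hJ (hne X hX2) (memS X hX hX2)]
      exact pde _ (memB X hX) hX2
  · -- boundary values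
    intro X hX
    have hXf : rr X = R (xx X) := (frontier_dom h).subset hX
    have hXr : r1 < ‖X‖ := by
      have := h.lt _ (xx_mem X)
      rw [← hXf] at this
      exact this
    have hX2 : a < ‖X‖ := by linarith
    have hX0 := hne X hX2
    have hcont : Tendsto (fun Y : E3 => (rr Y, xx Y)) (𝓝[Dom R] X) (𝓝[Below R] (R (xx X), xx X)) := by
      rw [← hXf]
      refine tendsto_nhdsWithin_iff.2 ⟨?_, ?_⟩
      · exact ((contDiffAt_rr hX0).continuousAt.prodMk (contDiffAt_xx hX0).continuousAt).tendsto.mono_left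
          nhdsWithin_le_nhds
      · filter_upwards [self_mem_nhdsWithin] with Y hY
        exact memB Y hY
    have evn : ∀ᶠ Y : E3 in 𝓝[Dom R] X, a < ‖Y‖ :=
      (continuous_norm.continuousAt.eventually_const_lt hX2).filter_mono nhdsWithin_le_nhds
    constructor
    · have t := (b0 _ (xx_mem X)).comp hcont
      refine t.congr' ?_
      filter_upwards [evn] with Y hY
      exact (val2 Y hY).symm
    · have t1 := (b1 _ (xx_mem X)).comp hcont
      have t2 := (b2 _ (xx_mem X)).comp hcont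
      have d1 : Tendsto (fderiv ℝ rr) (𝓝[Dom R] X) (𝓝 (fderiv ℝ rr X)) :=
        (((contDiffAt_rr hX0).fderiv_right (m := 1) (by norm_num)).continuousAt).tendsto.mono_left
          nhdsWithin_le_nhds
      have d2 : Tendsto (fderiv ℝ xx) (𝓝[Dom R] X) (𝓝 (fderiv ℝ xx X)) :=
        (((contDiffAt_xx hX0).fderiv_right (m := 1) (by norm_num)).continuousAt).tendsto.mono_left
          nhdsWithin_le_nhds
      have t := (t1.smul d1).add (t2.smul d2)
      rw [zero_smul, zero_smul, add_zero] at t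
      refine t.congr' ?_
      filter_upwards [evn, self_mem_nhdsWithin] with Y hY hYD
      have hY0 := hne Y hY
      rw [(ev2 Y hY).fderiv_eq]
      exact (fderiv_comp2 hJ ((contDiffAt_rr hY0).differentiableAt (by norm_num))
        ((contDiffAt_xx hY0).differentiableAt (by norm_num)) (memS Y hYD hY)).fderiv.symm

namespace ParData

/-- The parametric geometric reduction (`notSchiffer` of `H31/SG/Param.lean`), with the domain and the
solution. -/
theorem sol' (h : ParData ξ a b ρ c r rs rx V P W Ps Px Ws Wx) {r1 : ℝ}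
    (hR : RadFun (fun x => r (ρ, x)) r1 ξ) (hb : b ≤ r1) {u0 : E3 → ℝ}
    (hu0 : ContDiffOn ℝ 2 u0 (Metric.ball 0 b))
    (pde0 : ∀ X ∈ Metric.ball (0 : E3) b,
      (∑ i : Fin 3, fderiv ℝ (fderiv ℝ u0) X (EuclideanSpace.single i (1 : ℝ))
        (EuclideanSpace.single i (1 : ℝ))) + u0 X = 0)
    (glue : ∀ X : E3, a < ‖X‖ → ‖X‖ < b → u0 X = V (‖X‖, xx X)) : ∃ u : E3 → ℝ, ContDiffOn ℝ 2 u (Dom fun x => r (ρ, x)) ∧
      (∀ x ∈ Dom fun x => r (ρ, x), (∑ i : Fin 3, fderiv ℝ (fderiv ℝ u) x (EuclideanSpace.single i (1 : ℝ))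
        (EuclideanSpace.single i (1 : ℝ))) + (1 : ℝ) ^ 2 * u x = 0) ∧
      (∀ x ∈ frontier (Dom fun x => r (ρ, x)), Tendsto u (𝓝[Dom fun x => r (ρ, x)] x) (𝓝 c) ∧
        Tendsto (fderiv ℝ u) (𝓝[Dom fun x => r (ρ, x)] x) (𝓝 0)) := by
  have hab := h.ab
  have hbρ := h.bρ
  have haR : ∀ x ∈ Icc (-1 : ℝ) 1, a < r (ρ, x) := fun x hx => by
    have := hR.lt x hx
    linarith
  have hIcc : ∀ x ∈ Icc (-1 : ℝ) 1, x ∈ Ioo (-ξ) ξ := fun x hx =>
    ⟨by linarith [hx.1, h.xi], by linarith [hx.2, h.xi]⟩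
  have hcomp : ∀ {g : ℝ × ℝ → ℝ}, ContinuousOn g (Strip ξ a ρ) →
      ContinuousOn (fun w => g (inv a ρ r w)) (Img ξ a ρ r) := by
    intro g hg
    exact hg.comp (fun z hz => (h.inv_contAt hz).continuousWithinAt) (fun z hz => h.inv_mem hz)
  have hlim : ∀ {g : ℝ × ℝ → ℝ}, ContinuousOn g (StripC ξ a ρ) → ∀ x ∈ Icc (-1 : ℝ) 1,
      Tendsto (fun w => g (inv a ρ r w)) (𝓝[Below (fun x => r (ρ, x))] (r (ρ, x), x))
        (𝓝 (g (ρ, x))) := by
    intro g hg x hx
    have e : ContinuousWithinAt g (StripC ξ a ρ) (ρ, x) := hg _ ⟨⟨h.aρ, le_rfl⟩, hIcc x hx⟩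
    exact e.tendsto.comp (h.sig_tendsto hx (haR x hx))
  have crs0 : ∀ z ∈ Strip ξ a ρ, rs z ≠ 0 := fun z hz => (h.rs_pos z hz).ne'
  refine geo' (a := a) (b := b) (c := c) (S := Img ξ a ρ r)
    (U := fun w => V (inv a ρ r w)) (U1 := fun w => P (inv a ρ r w))
    (U2 := fun w => W (inv a ρ r w))
    (U11 := fun w => (fun z => Ps z / rs z) (inv a ρ r w))
    (U12 := fun w => (fun z => Px z - Ps z * rx z / rs z) (inv a ρ r w))
    (U21 := fun w => (fun z => Ws z / rs z) (inv a ρ r w))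
    (U22 := fun w => (fun z => Wx z - Ws z * rx z / rs z) (inv a ρ r w))
    hR h.a_pos h.ab hb h.isOpen_img h.below_sub ?_ ?_ ?_ ?_ ?_ ?_ ?_ ?_ ?_ hu0 pde0 ?_
  · refine ⟨?_, ?_, ?_⟩
    · intro z hz
      refine (h.comp_inv h.hV hz).congr_fderiv ?_
      have hne := crs0 _ (h.inv_mem hz)
      congr 1
      · field_simp
      · field_simp
        ring
    · intro z hz
      exact h.comp_inv h.hP hz
    · intro z hz
      exact h.comp_inv h.hW hz
  · exact hcomp (h.cPs.div h.crs crs0)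
  · exact hcomp (h.cPx.sub ((h.cPs.mul h.crx).div h.crs crs0))
  · exact hcomp (h.cWs.div h.crs crs0)
  · exact hcomp (h.cWx.sub ((h.cWs.mul h.crx).div h.crs crs0))
  · intro z hz hz2
    have hzI := h.below_sub z hz hz2
    have e := h.pde _ (h.inv_mem hzI) hz.2
    have e1 : r (inv a ρ r z) = z.1 := (h.sig_spec hzI).2
    have e2 : (inv a ρ r z).2 = z.2 := rfl
    rw [e1, e2] at e
    exact e
  · intro x hx
    have := hlim h.cV x hx
    rw [h.bV x hx] at this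
    exact this
  · intro x hx
    have := hlim h.cP x hx
    rw [h.bP x hx] at this
    exact this
  · intro x hx
    have := hlim h.cW x hx
    rw [h.bW x hx] at this
    exact this
  · intro X hX1 hX2
    rw [glue X hX1 hX2]
    have hx := hIcc _ (xx_mem X)
    have hmem : ((‖X‖, xx X) : ℝ × ℝ) ∈ Strip ξ a ρ := ⟨⟨hX1, by linarith⟩, hx⟩
    have hI : ((‖X‖, xx X) : ℝ × ℝ) ∈ Img ξ a ρ r := by
      refine ⟨hx, hX1, ?_⟩
      have := hR.lt _ (xx_mem X)
      show ‖X‖ < _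
      linarith
    obtain ⟨s1, s2⟩ := h.sig_spec hI
    have e1 : r (‖X‖, xx X) = ‖X‖ := h.id _ hmem hX2
    have e2 : sig a ρ r (‖X‖, xx X) = ‖X‖ := by
      have := (h.mono hx).injOn ⟨s1.1, s1.2.le⟩ ⟨hX1, by linarith⟩ (s2.trans e1.symm)
      exact this
    show V (‖X‖, xx X) = V (sig a ρ r (‖X‖, xx X), xx X)
    rw [e2]

end ParData

end Pool.Agent.H31.SG
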