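import Pool.Agent.H68.SC.Ext
import Pool.Agent.H68.SN.Fou

/-!
# MP_f4af34, `NotBall`: a plane wave has integral zero over all congruent copies of the domain
-/

set_option autoImplicit false
open Filter Topology Set MeasureTheory
open scoped ContDiff

noncomputable section

namespace Pool.Agent.H97.NB

open Pool.Agent.H68.SC (E ee pd UU)

/-- a plane wave -/
def pw (w : E) (β : ℝ) (x : E) : ℝ := Real.cos (inner ℝ w x + β)

theorem pw_contDiff (w : E) (β : ℝ) : ContDiff ℝ 2 (pw w β) := by
  unfold pw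
  exact Real.contDiff_cos.comp ((contDiff_const.inner ℝ contDiff_id).add contDiff_const)

theorem pd_pw (w : E) (β : ℝ) (i : Fin 3) : pd (pw w β) i = fun x => -(w i) * Real.sin (inner ℝ w x + β) := by
  funext x
  have e1 : HasFDerivAt (fun x : E => inner ℝ w x + β) (innerSL ℝ w) x :=
    ((innerSL ℝ w).hasFDerivAt).add_const β
  have e2 := (Real.hasDerivAt_cos (inner ℝ w x + β)).comp_hasFDerivAt x e1
  unfold pd
  have e3 : HasFDerivAt (pw w β) (-Real.sin (inner ℝ w x + β) • innerSL ℝ w) x := e2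
  rw [e3.fderiv]
  simp only [FunLike.coe_smul, Pi.smul_apply, innerSL_apply_apply, smul_eq_mul]
  unfold ee
  rw [EuclideanSpace.inner_single_right]
  simp
  ring

theorem pd_pd_pw (w : E) (β : ℝ) (i : Fin 3) (x : E) :
    pd (pd (pw w β) i) i x = -(w i) ^ 2 * pw w β x := by
  rw [pd_pw]
  have e1 : HasFDerivAt (fun x : E => inner ℝ w x + β) (innerSL ℝ w) x :=
    ((innerSL ℝ w).hasFDerivAt).add_const β
  have e2 := ((Real.hasDerivAt_sin (inner ℝ w x + β)).comp_hasFDerivAt x e1).const_mul (-(w i))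
  have e3 : HasFDerivAt (fun x => -(w i) * Real.sin (inner ℝ w x + β))
      (-(w i) • Real.cos (inner ℝ w x + β) • innerSL ℝ w) x := e2
  unfold pd
  rw [e3.fderiv]
  simp only [FunLike.coe_smul, Pi.smul_apply, innerSL_apply_apply, smul_eq_mul]
  unfold ee pw
  rw [EuclideanSpace.inner_single_right]
  simp
  ring

theorem pw_helm (w : E) (hw : ‖w‖ = 1) (β : ℝ) (x : E) :
    (∑ i, pd (pd (pw w β) i) i x) + (1 : ℝ) ^ 2 * pw w β x = 0 := by
  have h1 : ∑ i, (w i) ^ 2 = 1 := by
    have := EuclideanSpace.norm_sq_eq w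
    rw [hw] at this
    simpa using this.symm
  simp only [pd_pd_pw]
  rw [← Finset.sum_mul, Finset.sum_neg_distrib, h1]
  ring

theorem plane {D : Set E} {c : ℝ} {U : E → ℝ} (h : UU D 1 c U) (σ : E ≃ᵢ E) :
    ∫ x in σ '' D, Real.cos (x 0) = 0 := by
  set T := σ.toRealAffineIsometryEquiv with hT
  set L := T.linearIsometryEquiv with hL
  have h1 : ∀ x, σ x = L x + σ 0 := by
    intro x
    have := T.map_vadd (0 : E) x
    simpa [hT, hL] using this
  have hmp : MeasurePreserving (σ : E → E) volume volume := by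
    have e : (σ : E → E) = fun x => L x + σ 0 := funext h1
    rw [e]
    exact (measurePreserving_add_right volume (σ 0)).comp L.measurePreserving
  rw [hmp.setIntegral_image_emb σ.toHomeomorph.measurableEmbedding]
  set w : E := L.symm (ee 0) with hw
  have hwn : ‖w‖ = 1 := by
    rw [hw, LinearIsometryEquiv.norm_map]
    simp [ee]
  have h2 : ∀ x, (σ x) 0 = inner ℝ w x + (σ 0) 0 := by
    intro x
    rw [h1 x]
    have e1 : inner ℝ w x = inner ℝ (ee 0) (L x) := by
      rw [hw, ← L.inner_map_map, LinearIsometryEquiv.apply_symm_apply]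
    have e2 : inner ℝ (ee 0 : E) (L x) = (L x) 0 := by
      unfold ee
      rw [EuclideanSpace.inner_single_left]
      simp
    rw [e1, e2]
    rfl
  have h3 := Pool.Agent.H68.SN.int_helm h (pw_contDiff w ((σ 0) 0)) (pw_helm w hwn _)
  rw [← h3]
  refine integral_congr_ae (Eventually.of_forall fun x => ?_)
  show Real.cos ((σ x) 0) = pw w ((σ 0) 0) x
  rw [h2]
  rfl

end Pool.Agent.H97.NB
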