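import Pool.Agent.H97.NB.End
import Pool.Agent.H97.NB.Dif
import Pool.Agent.H97.NB.Pomp

/-!
# MP_f4af34, `NotBall`: assembly
-/

set_option autoImplicit false
open Filter Topology Set MeasureTheory
open scoped ContDiff

namespace Pool.Agent.H97.NB

theorem notBall :
    ∃ (D : Set E3) (u : E3 → ℝ) (F : E3 ≃ₜ E3) (R : ℝ → ℝ) (r : ℝ),
      (¬ ∃ (z : E3) (ρ : ℝ), D = Metric.ball z ρ) ∧
      ((∀ n : ℕ, ContDiff ℝ n F ∧ ContDiff ℝ n F.symm) ∧ F '' Metric.ball 0 1 = D ∧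
        F '' Metric.closedBall 0 1 = closure D ∧ F '' Metric.sphere 0 1 = frontier D) ∧
      (1 < r ∧ AnalyticOnNhd ℝ R (Ioo (-r) r) ∧ (∀ x ∈ Icc (-1 : ℝ) 1, 0 < R x) ∧
        (∀ x, R (-x) = R x) ∧ D = {X | ‖X‖ < R (X 2 / ‖X‖)}) ∧
      (ContDiff ℝ 1 u ∧ ContDiffOn ℝ 2 u D ∧
        (∀ X ∈ D, (∑ i : Fin 3, fderiv ℝ (fderiv ℝ u) X (EuclideanSpace.single i (1 : ℝ))
            (EuclideanSpace.single i (1 : ℝ))) + u X = 0) ∧
        ∀ X, X ∉ D → u X = 1 ∧ fderiv ℝ u X = 0) ∧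
      ∀ σ : E3 ≃ᵢ E3, ∫ X in σ '' D, Real.cos (X 0) = 0 := by
  classical
  obtain ⟨R, ⟨r1, ξ, hR, u0, h2, hpde, hbd⟩, ⟨r, hr, ha⟩, hev⟩ := SF.exists_data
  have hsub : Icc (-1 : ℝ) 1 ⊆ Ioo (-r) r := fun x hx => ⟨by linarith [hx.1], by linarith [hx.2]⟩
  have hP : Prof R r1 := ⟨hR.r1_pos, hR.lt, fun x hx => (ha x (hsub hx)).contDiffAt⟩
  obtain ⟨F, hF1, hF2, hF3⟩ := exists_diffeo hP
  have hD : Pool.Agent.H31.SG.Dom R = {X | ‖X‖ < R (X 2 / ‖X‖)} := rfl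
  rw [← hD] at hF3
  set D := Pool.Agent.H31.SG.Dom R with hDD
  have hsol : Pool.Agent.H68.SC.Sol D (Pool.Agent.H31.SG.phi R r1) 1 1 u0 :=
    { bdd := Pool.Agent.H31.SG.isBounded_dom hR
      conn := Pool.Agent.H31.SG.isConnected_dom hR
      smooth := Pool.Agent.H31.SG.contDiff_phi hR
      eqD := Pool.Agent.H31.SG.dom_eq hR
      reg := Pool.Agent.H31.SG.fderiv_phi_ne hR
      sph := Pool.Agent.H31.SG.homeo_dom hR
      kpos := one_pos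
      cne := one_ne_zero
      u2 := h2
      helm := hpde
      bd := hbd }
  have hUU := Pool.Agent.H68.SC.ext_UU hsol
  set U := Pool.Agent.H68.SC.extU D 1 u0 with hU
  have hDo : IsOpen D := hUU.opn
  have hUD : ∀ X ∈ D, U X + 1 = u0 X := by
    intro X hX
    rw [hU]
    unfold Pool.Agent.H68.SC.extU
    rw [if_pos hX]
    ring
  have hevt : ∀ X ∈ D, (fun Y => U Y + 1) =ᶠ[𝓝 X] u0 := by
    intro X hX
    filter_upwards [hDo.mem_nhds hX] with Y hY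
    exact hUD Y hY
  refine ⟨D, fun X => U X + 1, F, R, r, ?_, ⟨fun n => ⟨hF1.of_le (by exact_mod_cast le_top), hF2.of_le (by exact_mod_cast le_top)⟩, hF3, ?_, ?_⟩,
    ⟨hr, ha, fun x hx => hR.r1_pos.trans (hR.lt x hx), hev, hD⟩,
    ⟨hUU.C1.add contDiff_const, hUU.C2.add contDiffOn_const, ?_, ?_⟩, fun σ => plane hUU σ⟩
  · rintro ⟨z, ρ, hz⟩
    exact Pool.Agent.H31.SG.dom_ne_ball hR z ρ hz
  · rw [← closure_ball (0 : E3) one_ne_zero, F.image_closure, hF3]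
  · rw [← frontier_ball (0 : E3) one_ne_zero, F.image_frontier, hF3]
  · intro X hX
    have e1 := (hevt X hX).fderiv (𝕜 := ℝ)
    show (∑ i : Fin 3, fderiv ℝ (fderiv ℝ fun X => U X + 1) X (EuclideanSpace.single i (1 : ℝ))
            (EuclideanSpace.single i (1 : ℝ))) + (U X + 1) = 0
    rw [e1.fderiv_eq, hUD X hX]
    have := hpde X hX
    rwa [one_pow, one_mul] at this
  · intro X hX
    obtain ⟨e1, e2⟩ := hUU.out X hX
    refine ⟨?_, ?_⟩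
    · show U X + 1 = 1
      rw [e1, zero_add]
    · rw [fderiv_add_const, e2]

end Pool.Agent.H97.NB
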