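import Mathlib

/-!
# MP_f4af34, `NotBall`: the notions of the statement
-/

set_option autoImplicit false

open MeasureTheory

namespace Pool.Agent.H97.NB

/-- Three dimensional Euclidean space. -/
abbrev R3 : Type := EuclideanSpace ℝ (Fin 3)

/-- `F` is a smooth diffeomorphism of the space: `F` and its inverse are of class `C^n` for every `n`. -/
def IsDiffeo (F : R3 ≃ₜ R3) : Prop :=
  ∀ n : ℕ, ContDiff ℝ n F ∧ ContDiff ℝ n F.symm

/-- `F` maps the open unit ball, the closed unit ball and the unit sphere onto `D`, its closure and its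
boundary. -/
def MapsBall (F : R3 ≃ₜ R3) (D : Set R3) : Prop :=
  F '' Metric.ball 0 1 = D ∧ F '' Metric.closedBall 0 1 = closure D ∧
    F '' Metric.sphere 0 1 = frontier D

/-- `D` is the set `‖X‖ < R (X₂ / ‖X‖)` (the third coordinate over the norm), where `R` is even, positive
on `[-1, 1]` and real analytic in a neighbourhood of `[-1, 1]`. -/
def HasProfile (D : Set R3) (R : ℝ → ℝ) : Prop :=
  (∃ r : ℝ, 1 < r ∧ AnalyticOnNhd ℝ R (Set.Ioo (-r) r)) ∧ (∀ x ∈ Set.Icc (-1 : ℝ) 1, 0 < R x) ∧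
    (∀ x, R (-x) = R x) ∧ D = {X | ‖X‖ < R (X 2 / ‖X‖)}

/-- The Laplacian of `u` at `X`. -/
noncomputable def lapl (u : R3 → ℝ) (X : R3) : ℝ :=
  ∑ i : Fin 3, fderiv ℝ (fderiv ℝ u) X (EuclideanSpace.single i (1 : ℝ))
    (EuclideanSpace.single i (1 : ℝ))

/-- `u` is of class `C¹` in the space and of class `C²` in `D`, `Δ u + u = 0` in `D`, and `u = 1`,
`∇ u = 0` outside `D` (so also on the boundary of `D`). -/
def Solves (D : Set R3) (u : R3 → ℝ) : Prop :=
  ContDiff ℝ 1 u ∧ ContDiffOn ℝ 2 u D ∧ (∀ X ∈ D, lapl u X + u X = 0) ∧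
    ∀ X, X ∉ D → u X = 1 ∧ fderiv ℝ u X = 0

/-- The integral of `cos (X₀)` over every set congruent to `D` vanishes. -/
def WaveNull (D : Set R3) : Prop :=
  ∀ σ : R3 ≃ᵢ R3, ∫ X in σ '' D, Real.cos (X 0) = 0

end Pool.Agent.H97.NB
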